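import Pool.Agent.Lib.MP_f76626_agR.RDefs

set_option autoImplicit false

namespace RRD

open Pool.Agent.Lib.MP_44a246_nt Pool.Agent.Lib.MP_44a246_ntL Pool.Agent.Lib.MP_44a246_ntR
open WithZero Module

variable {κ L : Type*} [Field κ] [IsAlgClosed κ] [CharZero κ] [Field L] [Algebra κ L]

/-- PROOF: `genus_spec`. -/
theorem idx_nonneg (h : IsFF κ L) (D : Place κ L →₀ ℤ) : 0 ≤ idx D := by
  have h1 := genus_spec h D
  unfold idx
  omega

/-- PROOF: `finrank_rr_le`. -/
theorem idx_anti (h : IsFF κ L) {D D' : Place κ L →₀ ℤ} (hle : D ≤ D') : idx D' ≤ idx D := by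
  have h1 := finrank_rr_le h hle
  unfold idx
  omega

/-- PROOF: by minimality of the genus (`Nat.sInf_mem`, `Nat.sInf_le`; for genus 0 use `D = 0`, `1 ∈ rr 0`) there is
`D₀` with `idx D₀ = 0`; take `D' = D ⊔ D₀` (or `D + |..|`), `idx_anti`, `idx_nonneg`. -/
theorem exists_idx_zero (h : IsFF κ L) (D : Place κ L →₀ ℤ) :
    ∃ D' : Place κ L →₀ ℤ, D ≤ D' ∧ idx D' = 0 := by
  have key : ∃ D₀ : Place κ L →₀ ℤ, idx D₀ = 0 := by
    by_contra hcon
    push Not at hcon
    have h1 : ∀ D : Place κ L →₀ ℤ, 1 ≤ idx D := by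
      intro E
      have := idx_nonneg h E
      have := hcon E
      omega
    rcases Nat.eq_zero_or_pos (genus κ L) with hg | hg
    · -- genus 0: degree -1 divisor has index 0
      obtain ⟨P⟩ := exists_place h
      have h2 := h1 (Finsupp.single P (-1))
      have h3 : rr (Finsupp.single P (-1) : Place κ L →₀ ℤ) = ⊥ :=
        rr_of_neg h (by rw [divDeg_single]; norm_num)
      unfold idx at h2
      rw [h3, divDeg_single, hg, finrank_bot] at h2
      norm_num at h2
    · have h2 : (genus κ L - 1) ∈ {g : ℕ | ∀ D : Place κ L →₀ ℤ,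
          divDeg D + 1 - g ≤ Module.finrank κ (rr D)} := by
        intro E
        have h3 := h1 E
        unfold idx at h3
        have h4 : ((genus κ L - 1 : ℕ) : ℤ) = (genus κ L : ℤ) - 1 := by
          rw [Nat.cast_sub hg]; simp
        rw [h4]
        omega
      have h5 : genus κ L ≤ genus κ L - 1 := Nat.sInf_le h2
      omega
  obtain ⟨D₀, h0⟩ := key
  refine ⟨D ⊔ D₀, le_sup_left, ?_⟩
  have h1 := idx_anti h (le_sup_right : D₀ ≤ D ⊔ D₀)
  have h2 := idx_nonneg h (D ⊔ D₀)
  omega

/-- PROOF: then `rr (D + P) = rr D` (`rr_mono`), `divDeg_add`, `divDeg_single`. -/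
theorem idx_step_le (h : IsFF κ L) (D : Place κ L →₀ ℤ) (P : Place κ L)
    (hle : rr (D + Finsupp.single P 1) ≤ rr D) : idx (D + Finsupp.single P 1) = idx D - 1 := by
  have hD : D ≤ D + Finsupp.single P 1 := by
    refine le_add_of_nonneg_right ?_
    exact Finsupp.single_nonneg.mpr (by norm_num)
  have h1 : rr (D + Finsupp.single P 1) = rr D := le_antisymm hle (rr_mono hD)
  unfold idx
  rw [h1, divDeg_add, divDeg_single]
  ring

/-- PROOF: `finrank` is strictly larger (`Submodule.finrank_lt_finrank_of_lt`, `finite_rr`), and at most one larger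
(`finrank_rr_le`). -/
theorem idx_step_not (h : IsFF κ L) (D : Place κ L →₀ ℤ) (P : Place κ L)
    (hle : ¬ rr (D + Finsupp.single P 1) ≤ rr D) : idx (D + Finsupp.single P 1) = idx D := by
  have hD : D ≤ D + Finsupp.single P 1 := by
    refine le_add_of_nonneg_right ?_
    exact Finsupp.single_nonneg.mpr (by norm_num)
  have h1 := finrank_rr_le h hD
  have hf := finite_rr h (D + Finsupp.single P 1)
  have h2 : rr D < rr (D + Finsupp.single P 1) := lt_of_le_not_ge (rr_mono hD) hle
  have h3 := Submodule.finrank_lt_finrank_of_lt h2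
  unfold idx
  rw [divDeg_add, divDeg_single] at h1 ⊢
  omega

/-- PROOF: `1 ∈ rr 0`, and functions without poles are constant (`const_of_rr_zero`). -/
theorem finrank_rr_zero (h : IsFF κ L) : finrank κ (rr (0 : Place κ L →₀ ℤ)) = 1 := by
  have h1 : rr (0 : Place κ L →₀ ℤ) = Submodule.span κ {(1 : L)} := by
    apply le_antisymm
    · intro f hf
      have hf' : ∀ v : Place κ L, v.1 f ≤ 1 := by
        intro v
        have := hf v
        rwa [Finsupp.zero_apply, exp_zero] at this
      obtain ⟨c, hc⟩ := const_of_rr_zero h hf'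
      rw [Submodule.mem_span_singleton]
      exact ⟨c, by rw [Algebra.smul_def, mul_one, hc]⟩
    · rw [Submodule.span_singleton_le_iff_mem]
      intro v
      rw [map_one, Finsupp.zero_apply, exp_zero]
  rw [h1]
  exact finrank_span_singleton one_ne_zero

private theorem idx_divDeg_sub (D D' : Place κ L →₀ ℤ) :
    divDeg (D' - D) = divDeg D' - divDeg D := by
  have h := divDeg_add (D' - D) D
  rw [sub_add_cancel] at h
  omega

private theorem idx_divDeg_nonneg {D : Place κ L →₀ ℤ} (h : 0 ≤ D) : 0 ≤ divDeg D := by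
  unfold divDeg
  exact Finset.sum_nonneg fun v _ => h v

private theorem idx_divDeg_eq_zero {D : Place κ L →₀ ℤ} (h : 0 ≤ D) (h0 : divDeg D = 0) :
    D = 0 := by
  unfold divDeg Finsupp.sum at h0
  rw [Finset.sum_eq_zero_iff_of_nonneg fun v _ => h v] at h0
  ext v
  by_contra hv
  exact hv (h0 v (Finsupp.mem_support_iff.mpr hv))

/-- Induction from `D'` down to `D`. PROOF: induction on `divDeg (D' - D)` as in `finrank_rr_le` (GR1.lean). -/
theorem down_induction {D' : Place κ L →₀ ℤ} {p : (Place κ L →₀ ℤ) → Prop} (h0 : p D')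
    (hs : ∀ (D : Place κ L →₀ ℤ) (P : Place κ L), D + Finsupp.single P 1 ≤ D' →
      p (D + Finsupp.single P 1) → p D) (D : Place κ L →₀ ℤ) (hD : D ≤ D') : p D := by
  have key : ∀ n : ℕ, ∀ D : Place κ L →₀ ℤ, D ≤ D' → divDeg D' - divDeg D ≤ n → p D := by
    intro n
    induction n with
    | zero =>
      intro D hD hn
      have h1 : 0 ≤ D' - D := sub_nonneg.mpr hD
      have h2 : divDeg (D' - D) = 0 := by
        have := idx_divDeg_nonneg h1
        rw [idx_divDeg_sub] at this ⊢
        push_cast at hn
        omega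
      have h3 := idx_divDeg_eq_zero h1 h2
      rw [sub_eq_zero] at h3
      rw [← h3]
      exact h0
    | succ n ih =>
      intro D hD hn
      by_cases heq : D = D'
      · rw [heq]
        exact h0
      · obtain ⟨P, hP⟩ : ∃ P, D P < D' P := by
          by_contra hcon
          push Not at hcon
          exact heq (le_antisymm hD hcon)
        have h1 : D + Finsupp.single P 1 ≤ D' := by
          intro v
          by_cases hv : v = P
          · rw [hv, Finsupp.add_apply, Finsupp.single_eq_same]
            omega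
          · rw [Finsupp.add_apply, Finsupp.single_eq_of_ne hv, add_zero]
            exact hD v
        have h2 : divDeg (D + Finsupp.single P 1) = divDeg D + 1 := by
          rw [divDeg_add, divDeg_single]
        exact hs D P h1 (ih _ h1 (by rw [h2]; push_cast at hn; omega))
  exact key (divDeg D' - divDeg D).toNat D hD (Int.self_le_toNat _)

end RRD
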