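import Pool.Agent.Lib.MP_f76626_agR.Step
import Pool.Agent.Lib.MP_f76626_agR.Idx

set_option autoImplicit false

namespace RRD

open Pool.Agent.Lib.MP_44a246_nt Pool.Agent.Lib.MP_44a246_ntL Pool.Agent.Lib.MP_44a246_ntR
open WithZero Module

variable {κ L : Type*} [Field κ] [IsAlgClosed κ] [CharZero κ] [Field L] [Algebra κ L]

omit [IsAlgClosed κ] [CharZero κ] in
private theorem dim_exists_ge (D : Place κ L →₀ ℤ) (β : Place κ L →₀ L) :
    ∃ D' : Place κ L →₀ ℤ, D ≤ D' ∧ β ∈ U D' := by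
  classical
  have h1 : ∀ v : Place κ L, ∃ n : ℤ, v.1 (β v) ≤ exp n := by
    intro v
    by_cases h0 : v.1 (β v) = 0
    · exact ⟨0, by rw [h0]; exact zero_le⟩
    · exact ⟨log (v.1 (β v)), (exp_log h0).ge⟩
  choose n hn using h1
  obtain ⟨E, hE⟩ : ∃ E : Place κ L →₀ ℤ, ∀ v, E v =
      if v ∈ β.support then max (n v) (D v) - D v else 0 :=
    ⟨Finsupp.onFinset β.support
      (fun v => if v ∈ β.support then max (n v) (D v) - D v else 0)
      (fun v hv => by
        by_contra hcon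
        exact hv (if_neg hcon)), fun v => rfl⟩
  refine ⟨D + E, fun v => ?_, 0, fun v => ?_⟩
  · rw [Finsupp.add_apply, hE]
    split_ifs
    · have := le_max_right (n v) (D v)
      omega
    · omega
  · rw [sub_zero, Finsupp.add_apply, hE]
    split_ifs with hv
    · refine (hn v).trans (exp_le_exp.mpr ?_)
      have := le_max_left (n v) (D v)
      omega
    · rw [Finsupp.notMem_support_iff.1 hv, map_zero]
      exact zero_le

/-- PROOF: for `β` there is `D' ≥ D` with `β ∈ U D'` (f = 0, `D' v ≥ log v(β v)` on the support). Show `U D' ≤ U D₁` for all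
`D ≤ D₁ ≤ D'` by `down_induction` (on `D₁`, with `p D₁ := D ≤ D₁ → U D' ≤ U D₁`): from `D₁ + P` to `D₁`: `idx D₁ = 0 = idx (D₁ + P)` by `idx_anti`,
`idx_nonneg`, so `¬ rr (D₁ + P) ≤ rr D₁` (`idx_step_le`), so `single P π ∈ U D₁` and `U (D₁ + P) = U D₁`
(`U_step`, `single_mem_iff`; `π` exists by surjectivity `P.2.1`). -/
theorem U_top (h : IsFF κ L) {D : Place κ L →₀ ℤ} (h0 : idx D = 0) : U D = ⊤ := by
  rw [eq_top_iff]
  intro β _
  obtain ⟨D', hD', hβ⟩ := dim_exists_ge D β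
  have key := down_induction (D' := D') (p := fun D₁ => D ≤ D₁ → U D' ≤ U D₁)
    (fun _ => le_rfl) (fun D₁ P hle ih hD1 => ?_) D hD' le_rfl
  · exact key hβ
  have hP0 : (0 : Place κ L →₀ ℤ) ≤ Finsupp.single P 1 := by
    rw [Finsupp.single_nonneg]; norm_num
  have hD1P : D₁ ≤ D₁ + Finsupp.single P 1 := le_add_of_nonneg_right hP0
  have h1 := idx_anti h hD1
  have h2 := idx_nonneg h D₁
  have h3 := idx_nonneg h (D₁ + Finsupp.single P 1)
  have hnot : ¬ rr (D₁ + Finsupp.single P 1) ≤ rr D₁ := by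
    intro hcon
    have h4 := idx_step_le h D₁ P hcon
    omega
  obtain ⟨π, hπ⟩ := P.2.1 (exp (D₁ P + 1))
  have hs := (single_mem_iff h D₁ P hπ).2 hnot
  refine (ih (hD1.trans hD1P)).trans ?_
  rw [U_step h D₁ P hπ]
  exact sup_le le_rfl ((Submodule.span_singleton_le_iff_mem _ _).2 hs)

end RRD
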