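import Pool.Agent.Lib.MP_f76626_agR.Serre

/-!
# MP_f76626_ag: the gonality sequence in genus 26, 27 and 29 (helper38)
-/

set_option autoImplicit false

namespace RRD

open Pool.Agent.Lib.MP_44a246_nt Pool.Agent.Lib.MP_44a246_ntL Pool.Agent.Lib.MP_44a246_ntR
open WithZero Module

variable {κ L : Type*} [Field κ] [IsAlgClosed κ] [CharZero κ] [Field L] [Algebra κ L]

private theorem gon_attained (h : IsFF κ L) (r : ℕ) :
    ∃ D : Place κ L →₀ ℤ, divDeg D = gon κ L r ∧ r + 1 ≤ finrank κ (rr D) := by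
  obtain ⟨P⟩ := exists_place h
  have hne : {d : ℕ | ∃ D : Place κ L →₀ ℤ, divDeg D = d ∧ r + 1 ≤ finrank κ (rr D)}.Nonempty := by
    obtain ⟨N, hN⟩ : ∃ N : ℕ, N = r + genus κ L := ⟨_, rfl⟩
    refine ⟨N, Finsupp.single P (N : ℤ), divDeg_single _ _, ?_⟩
    have h1 := genus_spec h (Finsupp.single P (N : ℤ))
    rw [divDeg_single] at h1
    omega
  exact Nat.sInf_mem hne

theorem gon_dual (h : IsFF κ L) {r s e : ℕ} (he : gon κ L r ≤ e)
    (hs : e + s + 1 ≤ r + genus κ L) (hd : e + 2 ≤ 2 * genus κ L) :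
    gon κ L s + e + 2 ≤ 2 * genus κ L := by
  obtain ⟨D, hD, hr⟩ := gon_attained h r
  obtain ⟨P⟩ := exists_place h
  obtain ⟨W, hW, hM⟩ := serre h (by omega)
  set M : Place κ L →₀ ℤ := D + Finsupp.single P ((e : ℤ) - gon κ L r) with hMdef
  have hMdeg : divDeg M = e := by
    rw [hMdef, divDeg_add, divDeg_single, hD]
    ring
  have hle : D ≤ M := by
    rw [hMdef]
    refine le_add_of_nonneg_right ?_
    rw [Finsupp.single_nonneg]
    have : (gon κ L r : ℤ) ≤ e := by exact_mod_cast he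
    omega
  have hfin := finite_rr h M
  have hr2 : r + 1 ≤ finrank κ (rr M) := hr.trans (Submodule.finrank_mono (rr_mono hle))
  have h1 := hM M
  unfold idx at h1
  rw [hMdeg] at h1
  have h2 : s + 1 ≤ finrank κ (rr (W - M)) := by
    have h3 : ((r : ℤ) + 1) ≤ finrank κ (rr M) := by exact_mod_cast hr2
    have h4 : (e : ℤ) + s + 1 ≤ r + genus κ L := by exact_mod_cast hs
    have h5 : (s : ℤ) + 1 ≤ finrank κ (rr (W - M)) := by omega
    exact_mod_cast h5
  have hWM : divDeg (W - M) = divDeg W - e := by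
    have h3 := divDeg_add (W - M) M
    rw [sub_add_cancel, hMdeg] at h3
    omega
  have hnn : 0 ≤ divDeg (W - M) := by
    by_contra hneg
    push Not at hneg
    rw [rr_of_neg h hneg, finrank_bot] at h2
    omega
  have h6 : gon κ L s ≤ (divDeg (W - M)).toNat := by
    refine Nat.sInf_le ⟨W - M, ?_, h2⟩
    rw [Int.toNat_of_nonneg hnn]
  have h7 : (gon κ L s : ℤ) ≤ divDeg (W - M) := by
    have : ((divDeg (W - M)).toNat : ℤ) = divDeg (W - M) := Int.toNat_of_nonneg hnn
    rw [← this]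
    exact_mod_cast h6
  have h8 : (gon κ L s : ℤ) + e + 2 ≤ 2 * genus κ L := by omega
  exact_mod_cast h8

theorem main (h : IsFF κ L) (hg : genus κ L = 26 ∨ genus κ L = 27 ∨ genus κ L = 29)
    (h4 : gon κ L 4 ≤ (genus κ L - 1) / 2 + 8) :
    2 * gon κ L 9 ≤ 3 * ((genus κ L - 1) / 2) + 24 := by
  rcases hg with hg | hg | hg
  · rw [hg] at h4 ⊢
    have := gon_dual h (s := 9) (e := 20) (by omega) (by omega) (by omega)
    omega
  · rw [hg] at h4 ⊢
    have := gon_dual h (s := 9) (e := 21) (by omega) (by omega) (by omega)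
    omega
  · rw [hg] at h4 ⊢
    have := gon_dual h (r := 4) (s := 9) (e := 23) (by omega) (by omega) (by omega)
    omega

end RRD
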