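import Pool.Agent.Lib.MP_f76626_agR.RDefs

set_option autoImplicit false

namespace RRD

open Pool.Agent.Lib.MP_44a246_nt Pool.Agent.Lib.MP_44a246_ntL Pool.Agent.Lib.MP_44a246_ntR
open WithZero Module

variable {κ L : Type*} [Field κ] [IsAlgClosed κ] [CharZero κ] [Field L] [Algebra κ L]

omit [IsAlgClosed κ] [CharZero κ] in
private theorem mulV_mulV (x y : L) (α : Place κ L →₀ L) :
    mulV x (mulV y α) = mulV (x * y) α := by
  ext v
  rw [mulV_apply, mulV_apply, mulV_apply, mul_assoc]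

omit [IsAlgClosed κ] [CharZero κ] in
private theorem mulV_one' (α : Place κ L →₀ L) : mulV (1 : L) α = α := by
  ext v
  rw [mulV_apply, one_mul]

omit [IsAlgClosed κ] [CharZero κ] in
/-- if `x ∈ L(D' - D)` then `x U(D) ⊆ U(D')` -/
private theorem mulV_mem' {D D' : Place κ L →₀ ℤ} {x : L} (hx : ∀ v : Place κ L, v.1 x ≤ exp (D' v - D v))
    {α : Place κ L →₀ L} (hα : α ∈ U D) : mulV x α ∈ U D' := by
  obtain ⟨y, hy⟩ := hα
  refine ⟨x * y, fun v => ?_⟩
  have e : mulV x α v - x * y = x * (α v - y) := by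
    rw [mulV_apply]; ring
  rw [e, map_mul]
  calc v.1 x * v.1 (α v - y) ≤ exp (D' v - D v) * exp (D v) :=
        mul_le_mul' (hx v) (hy v)
    _ = exp (D' v) := by rw [← exp_add, sub_add_cancel]

omit [IsAlgClosed κ] [CharZero κ] in
private theorem val_ne {f : L} (hf : f ≠ 0) (v : Place κ L) : v.1 f ≠ 0 :=
  (v.1.ne_zero_iff).mpr hf

/-- PROOF: `mulV f` maps `U D` into `U Z` (multiply `f`-multiples of the congruence by `f`), and `mulV f⁻¹` maps `U Z`
into `U D`; `mulV f (mulV f⁻¹ β) = β`. `v.1 f = exp (log (v.1 f))` (`exp_log`). -/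
theorem mul_mem_iff {f : L} (hf : f ≠ 0) {Z D : Place κ L →₀ ℤ}
    (hZ : ∀ v : Place κ L, Z v = D v + log (v.1 f)) (ω : Dual κ (Place κ L →₀ L)) :
    ω ∘ₗ mulV f ∈ Om D ↔ ω ∈ Om Z := by
  rw [mem_Om, mem_Om]
  constructor
  · intro h β hβ
    have h1 : mulV f⁻¹ β ∈ U D := by
      apply mulV_mem' _ hβ
      intro v
      have e : D v - Z v = - log (v.1 f) := by rw [hZ v]; ring
      rw [e, map_inv₀, exp_neg, exp_log (val_ne hf v)]
    have h2 := h _ h1
    rw [LinearMap.comp_apply, mulV_mulV, mul_inv_cancel₀ hf, mulV_one'] at h2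
    exact h2
  · intro h β hβ
    rw [LinearMap.comp_apply]
    apply h
    apply mulV_mem' _ hβ
    intro v
    have e : Z v - D v = log (v.1 f) := by rw [hZ v]; ring
    rw [e, exp_log (val_ne hf v)]

/-- PROOF: `mulV f` is surjective for `f ≠ 0`. -/
theorem comp_mulV_ne {f : L} (hf : f ≠ 0) {ω : Dual κ (Place κ L →₀ L)} (hω : ω ≠ 0) :
    ω ∘ₗ mulV f ≠ 0 := by
  intro h
  apply hω
  apply LinearMap.ext
  intro α
  have h1 : (ω ∘ₗ mulV f) (mulV f⁻¹ α) = 0 := by
    rw [h]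
    rfl
  rw [LinearMap.comp_apply, mulV_mulV, mul_inv_cancel₀ hf, mulV_one'] at h1
  rw [h1]
  rfl

/-- the divisor `D + (f)_log` exists. PROOF: `h.place_finite` / `h.place_support`, `Finsupp.ofSupportFinite`; the degree is unchanged by
`h.product_formula` (see `rr_shift` in MP_44a246_ntR/GR2.lean). -/
theorem exists_shift (h : IsFF κ L) {f : L} (hf : f ≠ 0) (D : Place κ L →₀ ℤ) :
    ∃ Z : Place κ L →₀ ℤ, ∀ v : Place κ L, Z v = D v + log (v.1 f) := by
  have hsupp := h.place_support hf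
  exact ⟨D + Finsupp.ofSupportFinite (fun v : Place κ L => log (v.1 f)) hsupp, fun v => by
    rw [Finsupp.add_apply]; rfl⟩

/-- PROOF: `f = 0` is trivial (`ω ∘ₗ mulV 0 = 0`); otherwise `exists_shift` for `D - E`, `mul_mem_iff`, and `Z ≤ D`
because `log v(f) ≤ E v`; `Om_anti`. -/
theorem mul_mem_of_rr (h : IsFF κ L) {D E : Place κ L →₀ ℤ} {ω : Dual κ (Place κ L →₀ L)}
    (hω : ω ∈ Om D) {f : L} (hf : f ∈ rr E) : ω ∘ₗ mulV f ∈ Om (D - E) := by
  rw [mem_Om] at hω ⊢
  intro α hα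
  rw [LinearMap.comp_apply]
  apply hω
  apply mulV_mem' _ hα
  intro v
  have e : D v - (D - E) v = E v := by rw [Finsupp.sub_apply]; ring
  rw [e]
  exact hf v

/-- PROOF: `mulV` is additive and homogeneous in `f`. -/
theorem mulV_add (f g : L) : mulV (κ := κ) (f + g) = mulV f + mulV g := by
  apply LinearMap.ext
  intro α
  ext v
  rw [LinearMap.add_apply, Finsupp.add_apply, mulV_apply, mulV_apply, mulV_apply, add_mul]

theorem mulV_smul (c : κ) (f : L) : mulV (κ := κ) (c • f) = c • mulV f := by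
  apply LinearMap.ext
  intro α
  ext v
  rw [LinearMap.smul_apply, Finsupp.smul_apply, mulV_apply, mulV_apply, smul_mul_assoc]

theorem mulV_mul (f g : L) : mulV (κ := κ) (f * g) = mulV f ∘ₗ mulV g := by
  apply LinearMap.ext
  intro α
  rw [LinearMap.comp_apply, mulV_mulV]

/-- PROOF: the map `f ↦ ω ∘ₗ mulV f` from `rr E` to `Om (D - E)` is linear and injective (`comp_mulV_ne`). -/
theorem finrank_rr_le_Om (h : IsFF κ L) {D E : Place κ L →₀ ℤ} {ω : Dual κ (Place κ L →₀ L)}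
    (hω : ω ∈ Om D) (hne : ω ≠ 0) (hfin : FiniteDimensional κ (Om (D - E))) :
    finrank κ (rr E) ≤ finrank κ (Om (D - E)) := by
  let F : rr E →ₗ[κ] Om (D - E) :=
    { toFun := fun f => ⟨ω ∘ₗ mulV f.1, mul_mem_of_rr h hω f.2⟩
      map_add' := by
        intro f g
        apply Subtype.ext
        change ω ∘ₗ mulV (f.1 + g.1) = ω ∘ₗ mulV f.1 + ω ∘ₗ mulV g.1
        rw [mulV_add, LinearMap.comp_add]
      map_smul' := by
        intro c f
        apply Subtype.ext
        change ω ∘ₗ mulV (c • f.1) = c • (ω ∘ₗ mulV f.1)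
        rw [mulV_smul, LinearMap.comp_smul] }
  apply LinearMap.finrank_le_finrank_of_injective (f := F)
  refine (injective_iff_map_eq_zero F).mpr ?_
  intro f hf
  by_contra hf0
  have h1 : f.1 ≠ 0 := fun h2 => hf0 (Subtype.ext h2)
  exact comp_mulV_ne h1 hne (congrArg Subtype.val hf)

end RRD
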