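import Pool.Agent.Lib.MP_f76626_agR.Quot
import Pool.Agent.Lib.MP_f76626_agR.Mul

set_option autoImplicit false

namespace RRD

open Pool.Agent.Lib.MP_44a246_nt Pool.Agent.Lib.MP_44a246_ntL Pool.Agent.Lib.MP_44a246_ntR
open WithZero Module

variable {κ L : Type*} [Field κ] [IsAlgClosed κ] [CharZero κ] [Field L] [Algebra κ L]

/-- PROOF: let `β ∈ U (D₁ ⊔ D₂)` with `f`. Let `β₂` be `β v - f` on the finite set `{v | D₁ v < D₂ v}` and 0 elsewhere,
`β₁ = β - β₂`; then `β₁ ∈ U D₁` with `f`, `β₂ ∈ U D₂` with `0`. -/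
theorem sup_mem {D₁ D₂ : Place κ L →₀ ℤ} {ω : Dual κ (Place κ L →₀ L)} (h1 : ω ∈ Om D₁)
    (h2 : ω ∈ Om D₂) : ω ∈ Om (D₁ ⊔ D₂) := by
  classical
  rw [mem_Om] at h1 h2 ⊢
  rintro β ⟨f, hf⟩
  have hfs : ∀ v : Place κ L, (if D₁ v < D₂ v then β v - f else 0) ≠ 0 →
      v ∈ (D₂ - D₁).support := by
    intro v hv
    rw [Finsupp.mem_support_iff, Finsupp.sub_apply]
    by_cases hc : D₁ v < D₂ v
    · omega
    · rw [if_neg hc] at hv
      exact absurd rfl hv
  let β₂ : Place κ L →₀ L :=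
    Finsupp.onFinset (D₂ - D₁).support (fun v => if D₁ v < D₂ v then β v - f else 0) hfs
  have hβ₂ : ∀ v : Place κ L, β₂ v = if D₁ v < D₂ v then β v - f else 0 := fun v => rfl
  have m2 : β₂ ∈ U D₂ := by
    refine ⟨0, fun v => ?_⟩
    rw [hβ₂ v, sub_zero]
    by_cases hc : D₁ v < D₂ v
    · rw [if_pos hc]
      have h3 := hf v
      rw [Finsupp.sup_apply, sup_eq_right.mpr hc.le] at h3
      exact h3
    · rw [if_neg hc, map_zero]
      exact zero_le
  have m1 : β - β₂ ∈ U D₁ := by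
    refine ⟨f, fun v => ?_⟩
    rw [Finsupp.sub_apply, hβ₂ v]
    by_cases hc : D₁ v < D₂ v
    · rw [if_pos hc]
      have e : β v - (β v - f) - f = 0 := by ring
      rw [e, map_zero]
      exact zero_le
    · rw [if_neg hc, sub_zero]
      have h3 := hf v
      rw [Finsupp.sup_apply, sup_eq_left.mpr (not_lt.mp hc)] at h3
      exact h3
  have e : β = (β - β₂) + β₂ := (sub_add_cancel β β₂).symm
  rw [e, map_add, h1 _ m1, h2 _ m2, add_zero]

omit [IsAlgClosed κ] [CharZero κ] in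
private theorem mx_divDeg_sub (D D' : Place κ L →₀ ℤ) :
    divDeg (D' - D) = divDeg D' - divDeg D := by
  have h : divDeg (D' - D + D) = divDeg (D' - D) + divDeg D := by
    unfold divDeg
    exact Finsupp.sum_add_index' (fun _ => rfl) (fun _ _ _ => rfl)
  rw [sub_add_cancel] at h
  omega

omit [IsAlgClosed κ] [CharZero κ] in
private theorem mx_divDeg_eq_zero {D : Place κ L →₀ ℤ} (h : 0 ≤ D) (h0 : divDeg D ≤ 0) :
    D = 0 := by
  unfold divDeg Finsupp.sum at h0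
  have h1 : D.support.sum (fun v => D v) = 0 :=
    le_antisymm h0 (Finset.sum_nonneg fun v _ => h v)
  rw [Finset.sum_eq_zero_iff_of_nonneg fun v _ => h v] at h1
  ext v
  by_contra hv
  exact hv (h1 v (Finsupp.mem_support_iff.mpr hv))

/-- PROOF: all `D` with `ω ∈ Om D` have bounded degree: `divDeg D + 1 - g ≤ finrank (rr D) ≤ finrank (Om 0) = idx 0`
(`genus_spec`, `finrank_rr_le_Om` with `E = D`, `dim_Om`). Take `W` of maximal degree; for `D'` in the set also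
`D' ⊔ W` is in the set (`sup_mem`) and has degree at least that of `W`, so it is `W`. -/
theorem exists_max (h : IsFF κ L) {D : Place κ L →₀ ℤ} {ω : Dual κ (Place κ L →₀ L)}
    (hω : ω ∈ Om D) (hne : ω ≠ 0) :
    ∃ W : Place κ L →₀ ℤ, ω ∈ Om W ∧ ∀ D' : Place κ L →₀ ℤ, ω ∈ Om D' → D' ≤ W := by
  classical
  have hb : ∀ D' : Place κ L →₀ ℤ, ω ∈ Om D' →
      divDeg D' ≤ idx (0 : Place κ L →₀ ℤ) + genus κ L := by
    intro D' hD'
    have h0 := dim_Om h (D' - D')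
    have h1 := finrank_rr_le_Om h hD' hne (E := D') h0.1
    have h2 := genus_spec h D'
    have h3 : idx (D' - D') = idx (0 : Place κ L →₀ ℤ) := by rw [sub_self]
    have h4 := h0.2
    rw [h3] at h4
    have h5 : (finrank κ (rr D') : ℤ) ≤ (finrank κ (Om (D' - D')) : ℤ) := by exact_mod_cast h1
    omega
  obtain ⟨m, ⟨W, hW, hWm⟩, hmax⟩ := Int.exists_greatest_of_bdd
    (P := fun n : ℤ => ∃ D' : Place κ L →₀ ℤ, ω ∈ Om D' ∧ divDeg D' = n)
    ⟨idx (0 : Place κ L →₀ ℤ) + genus κ L, by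
      rintro z ⟨D', hD', rfl⟩
      exact hb D' hD'⟩ ⟨divDeg D, D, hω, rfl⟩
  refine ⟨W, hW, fun D' hD' => ?_⟩
  have hs : ω ∈ Om (W ⊔ D') := sup_mem hW hD'
  have h1 : divDeg (W ⊔ D') ≤ m := hmax _ ⟨_, hs, rfl⟩
  have h2 : 0 ≤ (W ⊔ D') - W := sub_nonneg.mpr le_sup_left
  have h3 : divDeg ((W ⊔ D') - W) ≤ 0 := by
    rw [mx_divDeg_sub]
    omega
  have h4 := mx_divDeg_eq_zero h2 h3
  have h5 : W ⊔ D' = W := sub_eq_zero.mp h4
  exact sup_eq_left.mp h5

end RRD
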