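import Pool.Agent.Lib.MP_f76626_agR.Quot
import Pool.Agent.Lib.MP_f76626_agR.Mul

set_option autoImplicit false

namespace RRD

open Pool.Agent.Lib.MP_44a246_nt Pool.Agent.Lib.MP_44a246_ntL Pool.Agent.Lib.MP_44a246_ntR
open WithZero Module

variable {κ L : Type*} [Field κ] [IsAlgClosed κ] [CharZero κ] [Field L] [Algebra κ L]

/-- PROOF: suppose not. For a place `P` (`exists_place`) and `B = n P`, `n > 0` large, the map
`rr (D + B) × rr (D' + B) → Om (- B)`, `(f, g) ↦ ω₀ ∘ₗ mulV f + ω ∘ₗ mulV g` (`mul_mem_of_rr`: `D - (D + B) = - B`) is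
linear and injective: if the sum is 0 and `g ≠ 0` then `ω = ω₀ ∘ₗ mulV (- f / g)`, a contradiction; if `g = 0` then
`f = 0` by `comp_mulV_ne`. So `finrank (rr (D + B)) + finrank (rr (D' + B)) ≤ finrank (Om (-B)) = idx (-B)
= n - 1 + g` (`dim_Om`, `rr_of_neg`), while the left side is `≥ deg D + deg D' + 2 n + 2 - 2 g` (`genus_spec`). -/
theorem one_dim (h : IsFF κ L) {D D' : Place κ L →₀ ℤ} {ω₀ ω : Dual κ (Place κ L →₀ L)}
    (h0 : ω₀ ∈ Om D) (hne : ω₀ ≠ 0) (hω : ω ∈ Om D') : ∃ f : L, ω = ω₀ ∘ₗ mulV f := by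
  classical
  by_contra hcon
  push Not at hcon
  obtain ⟨P⟩ := exists_place h
  obtain ⟨N, hN⟩ : ∃ N : ℤ, N = |divDeg D| + |divDeg D'| + 3 * (genus κ L : ℤ) + 1 := ⟨_, rfl⟩
  have hN0 : 0 < N := by
    have h1 := abs_nonneg (divDeg D)
    have h2 := abs_nonneg (divDeg D')
    omega
  have hB : divDeg (Finsupp.single P N) = N := divDeg_single P N
  have hnB : divDeg (-(Finsupp.single P N : Place κ L →₀ ℤ)) = -N := by
    rw [← Finsupp.single_neg]
    exact divDeg_single P (-N)
  obtain ⟨hfin, hdim⟩ := dim_Om h (-(Finsupp.single P N : Place κ L →₀ ℤ))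
  have hneg : rr (-(Finsupp.single P N : Place κ L →₀ ℤ)) = ⊥ := rr_of_neg h (by rw [hnB]; omega)
  have hidx : idx (-(Finsupp.single P N : Place κ L →₀ ℤ)) = N - 1 + genus κ L := by
    unfold idx
    rw [hneg, finrank_bot, hnB]
    push_cast
    ring
  have hf1 : FiniteDimensional κ (rr (D + Finsupp.single P N)) := finite_rr h _
  have hf2 : FiniteDimensional κ (rr (D' + Finsupp.single P N)) := finite_rr h _
  let Φ : (rr (D + Finsupp.single P N) × rr (D' + Finsupp.single P N)) →ₗ[κ]
      Dual κ (Place κ L →₀ L) :=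
    { toFun := fun x => ω₀ ∘ₗ mulV (x.1 : L) + ω ∘ₗ mulV (x.2 : L)
      map_add' := fun x y => by
        rw [Prod.fst_add, Prod.snd_add, Submodule.coe_add, Submodule.coe_add, mulV_add, mulV_add,
          LinearMap.comp_add, LinearMap.comp_add]
        abel
      map_smul' := fun c x => by
        rw [Prod.smul_fst, Prod.smul_snd, Submodule.coe_smul, Submodule.coe_smul, mulV_smul,
          mulV_smul, LinearMap.comp_smul, LinearMap.comp_smul, RingHom.id_apply, smul_add] }
  have hΦa : ∀ x, Φ x = ω₀ ∘ₗ mulV (x.1 : L) + ω ∘ₗ mulV (x.2 : L) := fun x => rfl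
  have hΦ : ∀ x, Φ x ∈ Om (-(Finsupp.single P N : Place κ L →₀ ℤ)) := by
    intro x
    rw [hΦa]
    have e1 := mul_mem_of_rr h h0 x.1.2
    have e2 := mul_mem_of_rr h hω x.2.2
    rw [sub_add_cancel_left] at e1 e2
    exact add_mem e1 e2
  have hinj : Function.Injective (Φ.codRestrict (Om (-(Finsupp.single P N : Place κ L →₀ ℤ))) hΦ) := by
    rw [injective_iff_map_eq_zero]
    rintro ⟨f, g⟩ hz
    have hz1 : ω₀ ∘ₗ mulV (f : L) + ω ∘ₗ mulV (g : L) = 0 := by
      have := congrArg Subtype.val hz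
      exact this
    by_cases hg : (g : L) = 0
    · have h3 : ω ∘ₗ mulV (g : L) = 0 := by
        refine LinearMap.ext fun β => ?_
        have h4 : mulV (κ := κ) (g : L) β = 0 := by
          refine Finsupp.ext fun v => ?_
          rw [mulV_apply, hg, zero_mul, Finsupp.zero_apply]
        rw [LinearMap.comp_apply, h4, map_zero, LinearMap.zero_apply]
      rw [h3, add_zero] at hz1
      have hf : (f : L) = 0 := by
        by_contra hf
        exact comp_mulV_ne hf hne hz1
      exact Prod.ext (Subtype.ext hf) (Subtype.ext hg)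
    · exfalso
      refine hcon (-((f : L) * (g : L)⁻¹)) (LinearMap.ext fun β => ?_)
      have h3 := LinearMap.congr_fun hz1 (mulV (κ := κ) (g : L)⁻¹ β)
      rw [LinearMap.add_apply, LinearMap.comp_apply, LinearMap.comp_apply, LinearMap.zero_apply] at h3
      have h4 : mulV (κ := κ) (g : L) (mulV (κ := κ) (g : L)⁻¹ β) = β := by
        refine Finsupp.ext fun v => ?_
        rw [mulV_apply, mulV_apply, ← mul_assoc, mul_inv_cancel₀ hg, one_mul]
      have h5 : mulV (κ := κ) (-((f : L) * (g : L)⁻¹)) β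
          = -(mulV (κ := κ) (f : L) (mulV (κ := κ) (g : L)⁻¹ β)) := by
        refine Finsupp.ext fun v => ?_
        rw [Finsupp.neg_apply, mulV_apply, mulV_apply, mulV_apply]
        ring
      rw [h4] at h3
      rw [LinearMap.comp_apply, h5, map_neg]
      exact eq_neg_of_add_eq_zero_right h3
  have hle := LinearMap.finrank_le_finrank_of_injective hinj
  rw [finrank_prod] at hle
  have g1 := genus_spec h (D + Finsupp.single P N)
  have g2 := genus_spec h (D' + Finsupp.single P N)
  rw [divDeg_add, hB] at g1 g2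
  have a1 := neg_abs_le (divDeg D)
  have a2 := neg_abs_le (divDeg D')
  rw [hidx] at hdim
  omega

end RRD
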