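import Pool.Agent.Lib.MP_f76626_agR.Dim

set_option autoImplicit false

namespace RRD

open Pool.Agent.Lib.MP_44a246_nt Pool.Agent.Lib.MP_44a246_ntL Pool.Agent.Lib.MP_44a246_ntR
open WithZero Module

section linalg

variable {κ V : Type*} [Field κ] [AddCommGroup V] [Module κ V]

/-- If `S` is the kernel on `M` of the evaluation at `ε` and some functional of `M` does not vanish at `ε`
then the dimension of `M` is one larger. -/
private theorem quot_dim_step {S M : Submodule κ (Dual κ V)} {ε : V} {ω₀ : Dual κ V}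
    (hSM : ∀ ω, ω ∈ S ↔ ω ∈ M ∧ ω ε = 0) (h0 : ω₀ ∈ M) (h1 : ω₀ ε ≠ 0)
    (hS : FiniteDimensional κ S) :
    FiniteDimensional κ M ∧ finrank κ M = finrank κ S + 1 := by
  have hM : M = S ⊔ Submodule.span κ {ω₀} := by
    refine le_antisymm (fun ω hω => ?_) (sup_le (fun ω hω => ((hSM ω).1 hω).1) ?_)
    · have hd : ω = (ω - (ω ε / ω₀ ε) • ω₀) + (ω ε / ω₀ ε) • ω₀ := by abel
      rw [hd]
      refine Submodule.add_mem_sup ((hSM _).2 ⟨M.sub_mem hω (M.smul_mem _ h0), ?_⟩)
        (Submodule.smul_mem _ _ (Submodule.mem_span_singleton_self ω₀))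
      rw [LinearMap.sub_apply, LinearMap.smul_apply, smul_eq_mul, div_mul_cancel₀ _ h1, sub_self]
    · rw [Submodule.span_singleton_le_iff_mem]
      exact h0
  have hinf : S ⊓ Submodule.span κ {ω₀} = ⊥ := by
    rw [Submodule.eq_bot_iff]
    intro ω hω
    obtain ⟨h2, h3⟩ := Submodule.mem_inf.1 hω
    obtain ⟨c, rfl⟩ := Submodule.mem_span_singleton.1 h3
    have h4 := ((hSM _).1 h2).2
    rw [LinearMap.smul_apply, smul_eq_mul] at h4
    rcases mul_eq_zero.1 h4 with h5 | h5
    · rw [h5, zero_smul]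
    · exact absurd h5 h1
  have hne : ω₀ ≠ 0 := by
    rintro rfl
    exact h1 (LinearMap.zero_apply _)
  have h6 := Submodule.finrank_sup_add_finrank_inf_eq S (Submodule.span κ {ω₀})
  rw [hinf, finrank_bot, add_zero, finrank_span_singleton hne] at h6
  constructor
  · rw [hM]; infer_instance
  · rw [hM]; exact h6

end linalg

variable {κ L : Type*} [Field κ] [IsAlgClosed κ] [CharZero κ] [Field L] [Algebra κ L]

/-- PROOF: take `D' ≥ D` with `idx D' = 0` (`exists_idx_zero`), `U D' = ⊤` (`U_top`), so `Om D' = ⊥`. `down_induction`: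
from `D + P` to `D`: put `ε = single P π`, `U (D + P) = U D ⊔ span {ε}` (`U_step`), so `Om (D + P)` is the kernel of
evaluation at `ε` on `Om D`. If `¬ rr (D + P) ≤ rr D` then `ε ∈ U D`, `Om (D + P) = Om D`, `idx_step_not`. Else
`ε ∉ U D`, there is `ω ∈ Om D` with `ω ε ≠ 0` (`Submodule.exists_dual_map_eq_bot_of_notMem` or
`Submodule.exists_le_ker_of_notMem`), so the dimension is one larger, `idx_step_le`. -/
theorem dim_Om (h : IsFF κ L) (D : Place κ L →₀ ℤ) :
    FiniteDimensional κ (Om D) ∧ (finrank κ (Om D) : ℤ) = idx D := by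
  obtain ⟨D', hle, h0⟩ := exists_idx_zero h D
  refine down_induction (p := fun D => FiniteDimensional κ (Om D) ∧
    (finrank κ (Om D) : ℤ) = idx D) ?_ ?_ D hle
  · have hU := U_top h h0
    have hOm : Om D' = ⊥ := by unfold Om; rw [hU, Submodule.dualAnnihilator_top]
    show FiniteDimensional κ (Om D') ∧ (finrank κ (Om D') : ℤ) = idx D'
    rw [hOm, h0, finrank_bot]
    exact ⟨inferInstance, rfl⟩
  · rintro D P - ⟨hf, hd⟩
    obtain ⟨π, hπ⟩ := P.2.1 (exp (D P + 1))
    have hU := U_step h D P hπ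
    show FiniteDimensional κ (Om D) ∧ (finrank κ (Om D) : ℤ) = idx D
    by_cases hr : rr (D + Finsupp.single P 1) ≤ rr D
    · have hi := idx_step_le h D P hr
      have hn : Finsupp.single P π ∉ U D := fun hmem => (single_mem_iff h D P hπ).1 hmem hr
      obtain ⟨ω₀, h1, h2⟩ := Submodule.exists_le_ker_of_notMem hn
      have hSM : ∀ ω, ω ∈ Om (D + Finsupp.single P 1) ↔
          ω ∈ Om D ∧ ω (Finsupp.single P π) = 0 := by
        intro ω
        rw [mem_Om, mem_Om, hU]
        constructor
        · intro h3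
          exact ⟨fun β hβ => h3 β (Submodule.mem_sup_left hβ),
            h3 _ (Submodule.mem_sup_right (Submodule.mem_span_singleton_self _))⟩
        · rintro ⟨h3, h4⟩ β hβ
          obtain ⟨a, ha, b, hb, rfl⟩ := Submodule.mem_sup.1 hβ
          obtain ⟨c, rfl⟩ := Submodule.mem_span_singleton.1 hb
          rw [map_add, map_smul, h3 a ha, h4, smul_zero, add_zero]
      have h0' : ω₀ ∈ Om D := mem_Om.2 fun β hβ => LinearMap.mem_ker.1 (h2 hβ)
      obtain ⟨h5, h6⟩ := quot_dim_step hSM h0' h1 hf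
      refine ⟨h5, ?_⟩
      rw [h6]
      push_cast
      omega
    · have hi := idx_step_not h D P hr
      have hm := (single_mem_iff h D P hπ).2 hr
      have hUU : U (D + Finsupp.single P 1) = U D := by
        rw [hU]
        exact sup_eq_left.2 (by rwa [Submodule.span_singleton_le_iff_mem])
      have hO : Om (D + Finsupp.single P 1) = Om D := by unfold Om; rw [hUU]
      rw [hO, hi] at hd
      rw [hO] at hf
      exact ⟨hf, hd⟩

end RRD
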