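import Mathlib
import Pool.Agent.Lib.MP_44a246_ntR.GR4

/-!
# MP_f76626_ag: finitely supported adeles and Weil differentials (helper38)
-/

set_option autoImplicit false

namespace RRD

open Pool.Agent.Lib.MP_44a246_nt Pool.Agent.Lib.MP_44a246_ntL Pool.Agent.Lib.MP_44a246_ntR
open WithZero Module

variable {κ L : Type*} [Field κ] [Field L] [Algebra κ L]

/-- The finitely supported adeles `β` which are congruent to a function `f` modulo `A(D)`. -/
def U (D : Place κ L →₀ ℤ) : Submodule κ (Place κ L →₀ L) where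
  carrier := {β | ∃ f : L, ∀ v : Place κ L, v.1 (β v - f) ≤ exp (D v)}
  add_mem' := by
    rintro a b ⟨f, hf⟩ ⟨g, hg⟩
    refine ⟨f + g, fun v => ?_⟩
    have e : (a + b) v - (f + g) = (a v - f) + (b v - g) := by
      rw [Finsupp.add_apply]; ring
    rw [e]
    exact (v.1.map_add _ _).trans (max_le (hf v) (hg v))
  zero_mem' := ⟨0, fun v => by simp⟩
  smul_mem' := by
    rintro c a ⟨f, hf⟩
    refine ⟨algebraMap κ L c * f, fun v => ?_⟩
    have e : (c • a) v - algebraMap κ L c * f = algebraMap κ L c * (a v - f) := by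
      rw [Finsupp.smul_apply, Algebra.smul_def]; ring
    rw [e, map_mul]
    rcases eq_or_ne c 0 with h | h
    · rw [h, map_zero, map_zero, zero_mul]; exact zero_le
    · rw [v.2.2 c h, one_mul]; exact hf v

/-- The index of speciality. -/
noncomputable def idx (D : Place κ L →₀ ℤ) : ℤ :=
  (finrank κ (rr D) : ℤ) - divDeg D - 1 + genus κ L

/-- Multiplication of adeles by a function. -/
noncomputable def mulV (f : L) : (Place κ L →₀ L) →ₗ[κ] (Place κ L →₀ L) :=
  Finsupp.mapRange.linearMap (LinearMap.mulLeft κ f)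

theorem mulV_apply (f : L) (β : Place κ L →₀ L) (v : Place κ L) : mulV f β v = f * β v := by
  simp [mulV]

/-- The Weil differentials vanishing on `A(D)`. -/
noncomputable def Om (D : Place κ L →₀ ℤ) : Submodule κ (Dual κ (Place κ L →₀ L)) :=
  (U D).dualAnnihilator

theorem mem_Om {D : Place κ L →₀ ℤ} {ω : Dual κ (Place κ L →₀ L)} :
    ω ∈ Om D ↔ ∀ β ∈ U D, ω β = 0 := by
  unfold Om
  exact Submodule.mem_dualAnnihilator ω

theorem U_mono {D D' : Place κ L →₀ ℤ} (h : D ≤ D') : U D ≤ U D' := by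
  rintro β ⟨f, hf⟩
  exact ⟨f, fun v => (hf v).trans (exp_le_exp.mpr (h v))⟩

theorem Om_anti {D D' : Place κ L →₀ ℤ} (h : D ≤ D') : Om D' ≤ Om D := by
  intro ω hω
  rw [mem_Om] at hω ⊢
  exact fun β hβ => hω β (U_mono h hβ)

/-- The gonality sequence of the curve with function field `L`: the least degree of a divisor
`D` with `h⁰(D) ≥ r + 1`. -/
noncomputable def gon (κ L : Type*) [Field κ] [Field L] [Algebra κ L] (r : ℕ) : ℕ :=
  sInf {d : ℕ | ∃ D : Place κ L →₀ ℤ, divDeg D = d ∧ r + 1 ≤ finrank κ (rr D)}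

end RRD
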