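import Pool.Agent.Lib.MP_f76626_agR.One
import Pool.Agent.Lib.MP_f76626_agR.Max

set_option autoImplicit false

namespace RRD

open Pool.Agent.Lib.MP_44a246_nt Pool.Agent.Lib.MP_44a246_ntL Pool.Agent.Lib.MP_44a246_ntR
open WithZero Module

variable {κ L : Type*} [Field κ] [IsAlgClosed κ] [CharZero κ] [Field L] [Algebra κ L]

/-- Serre duality (one half). PROOF: `idx 0 = g ≥ 1` (`finrank_rr_zero`), so `Om 0 ≠ ⊥` (`dim_Om`); take `ω ≠ 0` in it and
`W` from `exists_max`. Degree: `finrank (rr W) ≤ finrank (Om 0) = g` (`finrank_rr_le_Om` with `D = E = W`), and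
`idx W = finrank (Om W) ≥ 1`. For `M`: every `ω' ∈ Om M` is `ω ∘ₗ mulV f` (`one_dim`), and if `f ≠ 0` then
`ω ∈ Om (M + (f))` (`mul_mem_iff`, `exists_shift`), so `M + (f) ≤ W`, i.e. `f ∈ rr (W - M)`. So `Om M` is contained in the
image of `rr (W - M)` under the linear map `f ↦ ω ∘ₗ mulV f`. -/
theorem serre (h : IsFF κ L) (hg : 1 ≤ genus κ L) :
    ∃ W : Place κ L →₀ ℤ, divDeg W ≤ 2 * genus κ L - 2 ∧
      ∀ M : Place κ L →₀ ℤ, idx M ≤ finrank κ (rr (W - M)) := by
  have hz : divDeg (0 : Place κ L →₀ ℤ) = 0 := by simp [divDeg]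
  have h1 : idx (0 : Place κ L →₀ ℤ) = genus κ L := by
    unfold idx
    rw [finrank_rr_zero h, hz]
    push_cast
    ring
  obtain ⟨hf0, hd0⟩ := dim_Om h (0 : Place κ L →₀ ℤ)
  have hne : Om (0 : Place κ L →₀ ℤ) ≠ (⊥ : Submodule κ (Dual κ (Place κ L →₀ L))) := by
    intro hb
    rw [hb, finrank_bot, h1] at hd0
    push_cast at hd0
    omega
  obtain ⟨ω, hω, hω0⟩ := Submodule.exists_mem_ne_zero_of_ne_bot hne
  obtain ⟨W, hW, hmax⟩ := exists_max h hω hω0
  refine ⟨W, ?_, ?_⟩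
  · obtain ⟨hfW, hdW⟩ := dim_Om h W
    have hle : finrank κ (rr W) ≤ finrank κ (Om (W - W)) :=
      finrank_rr_le_Om h hW hω0 (by rw [sub_self]; exact hf0)
    rw [sub_self] at hle
    have hpos : 0 < finrank κ (Om W) := by
      have := hfW
      exact (Module.finrank_pos_iff_exists_ne_zero (R := κ) (M := Om W)).mpr
        ⟨⟨ω, hW⟩, fun hh => hω0 (congrArg Subtype.val hh)⟩
    have h2 : idx W = (finrank κ (rr W) : ℤ) - divDeg W - 1 + genus κ L := rfl
    omega
  · intro M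
    obtain ⟨hfM, hdM⟩ := dim_Om h M
    let φ : L →ₗ[κ] Dual κ (Place κ L →₀ L) :=
      { toFun := fun f => ω ∘ₗ mulV f
        map_add' := fun f g => by rw [mulV_add, LinearMap.comp_add]
        map_smul' := fun c f => by rw [mulV_smul, LinearMap.comp_smul]; rfl }
    have hsub : Om M ≤ (rr (W - M)).map φ := by
      intro ω' hω'
      obtain ⟨f, rfl⟩ := one_dim h hW hω0 hω'
      refine ⟨f, ?_, rfl⟩
      rcases eq_or_ne f 0 with rfl | hf
      · exact Submodule.zero_mem _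
      obtain ⟨Z, hZ⟩ := exists_shift h hf M
      have h4 := hmax Z ((mul_mem_iff hf hZ ω).mp hω')
      intro v
      have h5 := h4 v
      rw [hZ v] at h5
      have h6 : v.1 f ≠ 0 := (v.1.ne_zero_iff).mpr hf
      rw [← exp_log h6, exp_le_exp, Finsupp.sub_apply]
      omega
    have hfr := finite_rr h (W - M)
    have h7 := (Submodule.finrank_mono hsub).trans (Submodule.finrank_map_le φ (rr (W - M)))
    rw [← hdM]
    exact_mod_cast h7

end RRD
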