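import Pool.Agent.Lib.MP_f76626_agR.RDefs

set_option autoImplicit false

namespace RRD

open Pool.Agent.Lib.MP_44a246_nt Pool.Agent.Lib.MP_44a246_ntL Pool.Agent.Lib.MP_44a246_ntR
open WithZero Module

variable {κ L : Type*} [Field κ] [IsAlgClosed κ] [CharZero κ] [Field L] [Algebra κ L]

private theorem lt_exp_succ' {x : ℤᵐ⁰} {n : ℤ} : x < exp (n + 1) ↔ x ≤ exp n := by
  rw [exp_add]
  exact lt_mul_exp_iff_le exp_ne_zero

omit [IsAlgClosed κ] [CharZero κ] in
private theorem add_ne {D : Place κ L →₀ ℤ} {P v : Place κ L} (hv : v ≠ P) :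
    (D + Finsupp.single P 1 : Place κ L →₀ ℤ) v = D v := by
  rw [Finsupp.add_apply, Finsupp.single_eq_of_ne hv, add_zero]

omit [IsAlgClosed κ] [CharZero κ] in
private theorem add_self' {D : Place κ L →₀ ℤ} {P : Place κ L} :
    (D + Finsupp.single P 1 : Place κ L →₀ ℤ) P = D P + 1 := by
  rw [Finsupp.add_apply, Finsupp.single_eq_same]

omit [IsAlgClosed κ] [CharZero κ] in
private theorem le_add_single (D : Place κ L →₀ ℤ) (P : Place κ L) :
    D ≤ D + Finsupp.single P 1 := by
  intro v
  by_cases hv : v = P
  · subst hv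
    rw [add_self']
    omega
  · rw [add_ne hv]

/-- the residue argument -/
private theorem residue_arg (h : IsFF κ L) (P : Place κ L) {n : ℤ} {a b : L}
    (ha : P.1 a ≤ exp (n + 1)) (hb : P.1 b = exp (n + 1)) :
    ∃ c : κ, P.1 (a - algebraMap κ L c * b) ≤ exp n := by
  have hb0 : b ≠ 0 := by
    rintro rfl
    rw [map_zero] at hb
    exact exp_ne_zero hb.symm
  have h1 : P.1 (a / b) ≤ 1 := by
    rw [map_div₀, hb]
    exact div_le_one_of_le₀ ha zero_le
  obtain ⟨c, hc⟩ := h.place_residue P h1
  refine ⟨c, lt_exp_succ'.mp ?_⟩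
  have e : a - algebraMap κ L c * b = (a / b - algebraMap κ L c) * b := by
    rw [sub_mul, div_mul_cancel₀ _ hb0]
  rw [e, map_mul, hb]
  calc P.1 (a / b - algebraMap κ L c) * exp (n + 1) < 1 * exp (n + 1) :=
        mul_lt_mul_of_pos_right hc exp_pos
    _ = exp (n + 1) := one_mul _

/-- PROOF: `≥`: `U_mono`, and `single P π` lies in `U (D + P)` with `f = 0`. `≤`: let `β`, `f` be as in `U (D + P)`;
`x = (β P - f) / π` has `P.1 x ≤ 1`, take `c` with `P.1 (x - c) < 1` (`h.place_residue`, as in `rr_step` of
MP_44a246_ntR/GR1.lean); then `β - c • single P π ∈ U D` with the same `f`. -/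
theorem U_step (h : IsFF κ L) (D : Place κ L →₀ ℤ) (P : Place κ L) {π : L}
    (hπ : P.1 π = exp (D P + 1)) :
    U (D + Finsupp.single P 1) = U D ⊔ Submodule.span κ {Finsupp.single P π} := by
  apply le_antisymm
  · rintro β ⟨f, hf⟩
    have hP : P.1 (β P - f) ≤ exp (D P + 1) := by
      have := hf P
      rwa [add_self'] at this
    obtain ⟨c, hc⟩ := residue_arg h P hP hπ
    have hmem : β - c • Finsupp.single P π ∈ U D := by
      refine ⟨f, fun v => ?_⟩
      by_cases hv : v = P
      · subst hv
        have e : (β - c • Finsupp.single v π) v - f = (β v - f) - algebraMap κ L c * π := by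
          rw [Finsupp.sub_apply, Finsupp.smul_apply, Finsupp.single_eq_same, Algebra.smul_def]
          ring
        rw [e]
        exact hc
      · have e : (β - c • Finsupp.single P π) v - f = β v - f := by
          rw [Finsupp.sub_apply, Finsupp.smul_apply, Finsupp.single_eq_of_ne hv, smul_zero,
            sub_zero]
        rw [e]
        have := hf v
        rwa [add_ne hv] at this
    have e : β = (β - c • Finsupp.single P π) + c • Finsupp.single P π := by
      rw [sub_add_cancel]
    rw [e]
    exact Submodule.add_mem_sup hmem (Submodule.smul_mem _ c (Submodule.mem_span_singleton_self _))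
  · refine sup_le (U_mono (le_add_single D P)) ?_
    rw [Submodule.span_le, Set.singleton_subset_iff]
    refine ⟨0, fun v => ?_⟩
    by_cases hv : v = P
    · subst hv
      rw [Finsupp.single_eq_same, sub_zero, hπ, add_self']
    · rw [Finsupp.single_eq_of_ne hv, sub_zero, map_zero]
      exact zero_le

/-- PROOF: if `single P π ∈ U D` with `f`, then `f ∈ rr (D + P)` and `P.1 f = exp (D P + 1)`, so `f ∉ rr D`.
Conversely let `f ∈ rr (D + P)`, `f ∉ rr D`; then `P.1 f = exp (D P + 1)`, `x = π / f` has `P.1 x ≤ 1`, take the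
residue `c`, `P.1 (π - c f) ≤ exp (D P)`, and use the function `c • f`. -/
theorem single_mem_iff (h : IsFF κ L) (D : Place κ L →₀ ℤ) (P : Place κ L) {π : L}
    (hπ : P.1 π = exp (D P + 1)) :
    Finsupp.single P π ∈ U D ↔ ¬ rr (D + Finsupp.single P 1) ≤ rr D := by
  constructor
  · rintro ⟨f, hf⟩ hle
    have hP : P.1 (π - f) ≤ exp (D P) := by
      have := hf P
      rwa [Finsupp.single_eq_same] at this
    have hlt : (exp (D P) : ℤᵐ⁰) < exp (D P + 1) := exp_lt_exp.mpr (by omega)
    have hmem : f ∈ rr (D + Finsupp.single P 1) := by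
      intro v
      by_cases hv : v = P
      · subst hv
        rw [add_self']
        have e : f = π - (π - f) := by ring
        rw [e]
        exact (v.1.map_sub _ _).trans (max_le hπ.le (hP.trans hlt.le))
      · rw [add_ne hv]
        have := hf v
        rw [Finsupp.single_eq_of_ne hv, zero_sub, Valuation.map_neg] at this
        exact this
    have h2 : P.1 f ≤ exp (D P) := hle hmem P
    have h3 : P.1 π ≤ exp (D P) := by
      have e : π = (π - f) + f := by ring
      rw [e]
      exact (P.1.map_add _ _).trans (max_le hP h2)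
    rw [hπ] at h3
    exact absurd h3 (not_le.mpr hlt)
  · intro hn
    obtain ⟨f, hf, hf'⟩ := SetLike.not_le_iff_exists.mp hn
    have hfP : P.1 f = exp (D P + 1) := by
      apply le_antisymm
      · have := hf P
        rwa [add_self'] at this
      · by_contra hlt
        apply hf'
        intro v
        by_cases hv : v = P
        · rw [hv]
          exact lt_exp_succ'.mp (not_le.mp hlt)
        · have := hf v
          rwa [add_ne hv] at this
    obtain ⟨c, hc⟩ := residue_arg h P hπ.le hfP
    refine ⟨algebraMap κ L c * f, fun v => ?_⟩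
    by_cases hv : v = P
    · subst hv
      rw [Finsupp.single_eq_same]
      exact hc
    · rw [Finsupp.single_eq_of_ne hv, zero_sub, Valuation.map_neg, map_mul]
      have h1 : v.1 f ≤ exp (D v) := by
        have := hf v
        rwa [add_ne hv] at this
      rcases eq_or_ne c 0 with h0 | h0
      · rw [h0, map_zero, map_zero, zero_mul]
        exact zero_le
      · rw [v.2.2 c h0, one_mul]
        exact h1

end RRD
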